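import Mathlib

/-!
Open problem MP_e40659_an, question Q1 (negated form).

For every `d ≥ 2` and every `ε > 0` we give a skew product
`F (z, w) = (z ^ d, G z w)` on `ℂ × ℂ²`, with `G` jointly holomorphic, such that every fibre map
`G z` (for every complex `z`, in particular on the unit circle) is a linear automorphism of `ℂ²`
fixing the origin whose derivative at the origin has all eigenvalues of modulus less than `ε`,
and a point `p` of the unit circle such that over every iterated preimage `lam` of `p` under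
`z ↦ z ^ d` the stable manifold is a complex line through the origin; in particular it is not
biholomorphic to `ℂ²`, and no injective holomorphic map from `ℂ²` to `ℂ²` has it as its image.
-/

open Filter Topology

namespace Pool.Agent.Results.MP_e40659_an.SaddleProduct

/-- The skew product `F (z, w) = (z ^ d, G z w)` on `ℂ × ℂ²`. -/
def skew (d : ℕ) (G : ℂ → ℂ × ℂ → ℂ × ℂ) : ℂ × (ℂ × ℂ) → ℂ × (ℂ × ℂ) :=
  fun x => (x.1 ^ d, G x.1 x.2)

/-- The stable manifold of the point `(lam, 0)`, taken in the fibre over `lam` and seen as a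
subset of `ℂ²`: all `w` with `‖F^n (lam, w) - F^n (lam, 0)‖ → 0`. -/
def stableSet (d : ℕ) (G : ℂ → ℂ × ℂ → ℂ × ℂ) (lam : ℂ) : Set (ℂ × ℂ) :=
  {w | Tendsto (fun n : ℕ => ‖(skew d G)^[n] (lam, w) - (skew d G)^[n] (lam, 0)‖) atTop (𝓝 0)}

/-- `g` is a holomorphic automorphism of `ℂ²`. -/
def IsHolAut (g : ℂ × ℂ → ℂ × ℂ) : Prop :=
  Differentiable ℂ g ∧ ∃ h : ℂ × ℂ → ℂ × ℂ, Differentiable ℂ h ∧
    (∀ w, h (g w) = w) ∧ (∀ w, g (h w) = w)

/-- There is no injective holomorphic function `ℂ² → ℂ`. -/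
lemma no_inj (f : ℂ × ℂ → ℂ) (hf : Differentiable ℂ f) (hinj : Function.Injective f) : False := by
  have hg : Differentiable ℂ (fun z : ℂ => f (z, 0)) :=
    hf.comp (differentiable_id.prodMk (differentiable_const (0 : ℂ)))
  have hA : AnalyticAt ℂ (fun z : ℂ => f (z, 0)) 0 :=
    (hg.differentiableOn (s := Set.univ)).analyticAt Filter.univ_mem
  rcases hA.eventually_constant_or_nhds_le_map_nhds with hc | ho
  · have h1 : ∀ᶠ z in 𝓝[≠] (0 : ℂ), f (z, 0) = f (0, 0) := hc.filter_mono nhdsWithin_le_nhds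
    have h2 : ∀ᶠ z in 𝓝[≠] (0 : ℂ), z ≠ 0 := eventually_mem_nhdsWithin
    obtain ⟨z, hz1, hz2⟩ := (h1.and h2).exists
    have h3 := hinj hz1
    exact hz2 (congrArg Prod.fst h3)
  · have hr : Set.range (fun z : ℂ => f (z, 0)) ∈ 𝓝 (f (0, 0)) := by
      apply ho
      rw [Filter.mem_map]
      exact Filter.mem_of_superset Filter.univ_mem (fun z _ => ⟨z, rfl⟩)
    have hk : Continuous (fun w : ℂ => f (0, w)) :=
      hf.continuous.comp (continuous_const.prodMk continuous_id)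
    have h1 : ∀ᶠ w in 𝓝 (0 : ℂ), f (0, w) ∈ Set.range (fun z : ℂ => f (z, 0)) :=
      hk.continuousAt.eventually_mem hr
    have h1' := h1.filter_mono (nhdsWithin_le_nhds (s := {0}ᶜ))
    have h2 : ∀ᶠ w in 𝓝[≠] (0 : ℂ), w ≠ 0 := eventually_mem_nhdsWithin
    obtain ⟨w, ⟨z, hz⟩, hw⟩ := (h1'.and h2).exists
    have h3 := hinj hz
    exact hw (congrArg Prod.snd h3).symm

/-- The fibre maps of the example. -/
noncomputable def fib (c a : ℂ) (lam : ℂ) (w : ℂ × ℂ) : ℂ × ℂ :=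
  (a * Complex.exp (c * lam) * w.2, Complex.exp (-(c * lam)) * w.1)

/-- The inverse fibre maps of the example. -/
noncomputable def fibInv (c a : ℂ) (lam : ℂ) (w : ℂ × ℂ) : ℂ × ℂ :=
  (Complex.exp (c * lam) * w.2, a⁻¹ * Complex.exp (-(c * lam)) * w.1)

lemma fib_joint (c a : ℂ) :
    Differentiable ℂ (fun x : ℂ × (ℂ × ℂ) => fib c a x.1 x.2) := by
  unfold fib
  fun_prop

lemma fib_diff (c a lam : ℂ) : Differentiable ℂ (fib c a lam) := by
  unfold fib
  fun_prop

lemma fibInv_diff (c a lam : ℂ) : Differentiable ℂ (fibInv c a lam) := by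
  unfold fibInv
  fun_prop

lemma fibInv_fib (c a : ℂ) (ha : a ≠ 0) (lam : ℂ) (w : ℂ × ℂ) :
    fibInv c a lam (fib c a lam w) = w := by
  have h : Complex.exp (c * lam) * Complex.exp (-(c * lam)) = 1 := by
    rw [← Complex.exp_add]; simp
  unfold fib fibInv
  ext
  · simp only
    rw [← mul_assoc, h, one_mul]
  · simp only
    calc a⁻¹ * Complex.exp (-(c * lam)) * (a * Complex.exp (c * lam) * w.2)
        = (a⁻¹ * a) * (Complex.exp (c * lam) * Complex.exp (-(c * lam))) * w.2 := by ring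
      _ = w.2 := by rw [inv_mul_cancel₀ ha, h]; ring

lemma fib_fibInv (c a : ℂ) (ha : a ≠ 0) (lam : ℂ) (w : ℂ × ℂ) :
    fib c a lam (fibInv c a lam w) = w := by
  have h : Complex.exp (c * lam) * Complex.exp (-(c * lam)) = 1 := by
    rw [← Complex.exp_add]; simp
  unfold fib fibInv
  ext
  · simp only
    calc a * Complex.exp (c * lam) * (a⁻¹ * Complex.exp (-(c * lam)) * w.1)
        = (a * a⁻¹) * (Complex.exp (c * lam) * Complex.exp (-(c * lam))) * w.1 := by ring
      _ = w.1 := by rw [mul_inv_cancel₀ ha, h]; ring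
  · simp only
    calc Complex.exp (-(c * lam)) * (Complex.exp (c * lam) * w.2)
        = (Complex.exp (c * lam) * Complex.exp (-(c * lam))) * w.2 := by ring
      _ = w.2 := by rw [h]; ring

/-- The fibre maps as continuous linear maps. -/
noncomputable def fibL (c a lam : ℂ) : ℂ × ℂ →L[ℂ] ℂ × ℂ :=
  ((a * Complex.exp (c * lam)) • ContinuousLinearMap.snd ℂ ℂ ℂ).prod
    ((Complex.exp (-(c * lam))) • ContinuousLinearMap.fst ℂ ℂ ℂ)

lemma fibL_apply (c a lam : ℂ) (w : ℂ × ℂ) : fibL c a lam w = fib c a lam w := by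
  simp [fibL, fib]

lemma fderiv_fib (c a lam : ℂ) : fderiv ℂ (fib c a lam) 0 = fibL c a lam := by
  have h : fib c a lam = fun w => fibL c a lam w := by
    funext w; exact (fibL_apply c a lam w).symm
  rw [h]
  exact (fibL c a lam).hasFDerivAt.fderiv

lemma eig (c a lam μ : ℂ) (v : ℂ × ℂ) (hv : v ≠ 0) (h : fib c a lam v = μ • v) : μ ^ 2 = a := by
  have hE : Complex.exp (c * lam) * Complex.exp (-(c * lam)) = 1 := by
    rw [← Complex.exp_add]; simp
  have h1 : a * Complex.exp (c * lam) * v.2 = μ * v.1 := congrArg Prod.fst h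
  have h2 : Complex.exp (-(c * lam)) * v.1 = μ * v.2 := congrArg Prod.snd h
  have h3 : μ ^ 2 * v.1 = a * v.1 := by
    calc μ ^ 2 * v.1 = μ * (μ * v.1) := by ring
      _ = a * Complex.exp (c * lam) * (μ * v.2) := by rw [← h1]; ring
      _ = a * (Complex.exp (c * lam) * Complex.exp (-(c * lam))) * v.1 := by rw [← h2]; ring
      _ = a * v.1 := by rw [hE]; ring
  have h4 : μ ^ 2 * v.2 = a * v.2 := by
    calc μ ^ 2 * v.2 = μ * (μ * v.2) := by ring
      _ = Complex.exp (-(c * lam)) * (μ * v.1) := by rw [← h2]; ring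
      _ = a * (Complex.exp (c * lam) * Complex.exp (-(c * lam))) * v.2 := by rw [← h1]; ring
      _ = a * v.2 := by rw [hE]; ring
  by_cases hv1 : v.1 = 0
  · have hv2 : v.2 ≠ 0 := by
      intro hv2
      exact hv (Prod.ext hv1 hv2)
    exact mul_right_cancel₀ hv2 h4
  · exact mul_right_cancel₀ hv1 h3

/-- The form of iterates along the fibres. -/
lemma iterate_form (d : ℕ) (c a : ℂ) (ha : a ≠ 0) (k : ℕ) : ∀ lam : ℂ,
    ∃ A B : ℂ × ℂ →L[ℂ] ℂ × ℂ, (∀ w, A (B w) = w) ∧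
      ∀ w, (skew d (fib c a))^[k] (lam, w) = (lam ^ (d ^ k), A w) := by
  induction k with
  | zero =>
    intro lam
    refine ⟨ContinuousLinearMap.id ℂ _, ContinuousLinearMap.id ℂ _, ?_, ?_⟩
    · intro w; simp
    · intro w; simp
  | succ k ih =>
    intro lam
    obtain ⟨A, B, hAB, hA⟩ := ih (lam ^ d)
    have hI : Differentiable ℂ (fibInv c a lam) := fibInv_diff c a lam
    refine ⟨A.comp (fibL c a lam),
      (((Complex.exp (c * lam)) • ContinuousLinearMap.snd ℂ ℂ ℂ).prod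
        ((a⁻¹ * Complex.exp (-(c * lam))) • ContinuousLinearMap.fst ℂ ℂ ℂ)).comp B, ?_, ?_⟩
    · intro w
      have h1 : (((Complex.exp (c * lam)) • ContinuousLinearMap.snd ℂ ℂ ℂ).prod
        ((a⁻¹ * Complex.exp (-(c * lam))) • ContinuousLinearMap.fst ℂ ℂ ℂ)) (B w)
          = fibInv c a lam (B w) := by
        simp [fibInv]
      rw [ContinuousLinearMap.comp_apply, ContinuousLinearMap.comp_apply, h1, fibL_apply,
        fib_fibInv c a ha, hAB]
    · intro w
      rw [Function.iterate_succ_apply]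
      have h1 : skew d (fib c a) (lam, w) = (lam ^ d, fib c a lam w) := rfl
      rw [h1, hA, ContinuousLinearMap.comp_apply, fibL_apply, ← pow_mul, pow_succ' d k]

/-- Two steps over the two-cycle. -/
lemma two_steps (d : ℕ) (c a p : ℂ) (hp : (p ^ d) ^ d = p)
    (hc : Complex.exp (c * (p ^ d - p)) = a / 2) (ha : a ≠ 0) (w : ℂ × ℂ) :
    (skew d (fib c a)) ((skew d (fib c a)) (p, w)) = (p, ((a ^ 2 / 2) * w.1, 2 * w.2)) := by
  have h1 : Complex.exp (c * p ^ d) * Complex.exp (-(c * p)) = a / 2 := by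
    rw [← Complex.exp_add, ← hc]
    congr 1
    ring
  have h2 : Complex.exp (-(c * p ^ d)) * Complex.exp (c * p) = 2 / a := by
    have h3 : Complex.exp (-(c * p ^ d)) * Complex.exp (c * p)
        = (Complex.exp (c * (p ^ d - p)))⁻¹ := by
      rw [← Complex.exp_add, ← Complex.exp_neg]
      congr 1
      ring
    rw [h3, hc, inv_div]
  simp only [skew, fib, hp]
  refine Prod.ext rfl (Prod.ext ?_ ?_)
  · simp only
    calc a * Complex.exp (c * p ^ d) * (Complex.exp (-(c * p)) * w.1)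
        = a * (Complex.exp (c * p ^ d) * Complex.exp (-(c * p))) * w.1 := by ring
      _ = (a ^ 2 / 2) * w.1 := by rw [h1]; ring
  · simp only
    calc Complex.exp (-(c * p ^ d)) * (a * Complex.exp (c * p) * w.2)
        = a * (Complex.exp (-(c * p ^ d)) * Complex.exp (c * p)) * w.2 := by ring
      _ = 2 * w.2 := by rw [h2]; field_simp

lemma even_steps (d : ℕ) (c a p : ℂ) (hp : (p ^ d) ^ d = p)
    (hc : Complex.exp (c * (p ^ d - p)) = a / 2) (ha : a ≠ 0) (w : ℂ × ℂ) (k : ℕ) :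
    (skew d (fib c a))^[2 * k] (p, w) = (p, ((a ^ 2 / 2) ^ k * w.1, 2 ^ k * w.2)) := by
  induction k with
  | zero => simp
  | succ k ih =>
    have h : 2 * (k + 1) = (2 * k + 1) + 1 := by ring
    rw [h, Function.iterate_succ_apply', Function.iterate_succ_apply', ih,
      two_steps d c a p hp hc ha]
    refine Prod.ext rfl (Prod.ext ?_ ?_)
    · simp only; ring
    · simp only; ring

lemma stable_at (d : ℕ) (c p : ℂ) (a : ℝ) (ha0 : 0 < a) (ha1 : a ≤ 1) (hp : (p ^ d) ^ d = p)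
    (hc : Complex.exp (c * (p ^ d - p)) = (a : ℂ) / 2) :
    stableSet d (fib c a) p = {w | w.2 = 0} := by
  have ha : (a : ℂ) ≠ 0 := by exact_mod_cast ha0.ne'
  ext w
  simp only [stableSet, Set.mem_ofPred_eq]
  constructor
  · intro h
    by_contra hw
    have h2 : Tendsto (fun k : ℕ => 2 * k) atTop atTop :=
      tendsto_id.const_mul_atTop' (by norm_num)
    have h3 := h.comp h2
    have h4 : ∀ᶠ k : ℕ in atTop, ‖(skew d (fib c a))^[2 * k] (p, w)
        - (skew d (fib c a))^[2 * k] (p, 0)‖ < ‖w.2‖ := by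
      have := h3.eventually_lt_const (norm_pos_iff.mpr hw)
      exact this
    obtain ⟨k, hk⟩ := h4.exists
    rw [even_steps d c a p hp hc ha, even_steps d c a p hp hc ha] at hk
    have h5 : ‖(2 : ℂ) ^ k * w.2‖ ≤ ‖((p, (((a : ℂ) ^ 2 / 2) ^ k * w.1, 2 ^ k * w.2)) : ℂ × (ℂ × ℂ))
        - (p, (((a : ℂ) ^ 2 / 2) ^ k * (0 : ℂ × ℂ).1, 2 ^ k * (0 : ℂ × ℂ).2))‖ := by
      have e : ((p, (((a : ℂ) ^ 2 / 2) ^ k * w.1, 2 ^ k * w.2)) : ℂ × (ℂ × ℂ))
        - (p, (((a : ℂ) ^ 2 / 2) ^ k * (0 : ℂ × ℂ).1, 2 ^ k * (0 : ℂ × ℂ).2))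
          = (0, (((a : ℂ) ^ 2 / 2) ^ k * w.1, 2 ^ k * w.2)) := by
        refine Prod.ext ?_ (Prod.ext ?_ ?_) <;> simp
      rw [e]
      exact (norm_snd_le (((a : ℂ) ^ 2 / 2) ^ k * w.1, (2 : ℂ) ^ k * w.2)).trans
        (norm_snd_le ((0 : ℂ), (((a : ℂ) ^ 2 / 2) ^ k * w.1, (2 : ℂ) ^ k * w.2)))
    have h6 : ‖(2 : ℂ) ^ k * w.2‖ = 2 ^ k * ‖w.2‖ := by
      rw [norm_mul, norm_pow]; simp
    have h7 : (1 : ℝ) ≤ 2 ^ k := one_le_pow₀ (by norm_num)
    have h8 : ‖w.2‖ ≤ 2 ^ k * ‖w.2‖ := le_mul_of_one_le_left (norm_nonneg _) h7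
    linarith
  · intro hw
    set C : ℝ := max 1 ‖Complex.exp (-(c * p))‖ with hC
    have hC1 : 1 ≤ C := le_max_left _ _
    have hC2 : ‖Complex.exp (-(c * p))‖ ≤ C := le_max_right _ _
    set r : ℝ := a ^ 2 / 2 with hr
    have hr0 : 0 ≤ r := by positivity
    have hr1 : r < 1 := by
      rw [hr]; nlinarith
    have hrn : ‖((a : ℂ) ^ 2 / 2)‖ = r := by
      rw [norm_div, norm_pow, Complex.norm_real, Real.norm_of_nonneg ha0.le]; simp [hr]
    have hkey : ∀ k : ℕ, ‖((a : ℂ) ^ 2 / 2) ^ k * w.1‖ = r ^ k * ‖w.1‖ := by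
      intro k; rw [norm_mul, norm_pow, hrn]
    have hev : ∀ k : ℕ, (skew d (fib c a))^[2 * k] (p, w) - (skew d (fib c a))^[2 * k] (p, 0)
        = (0, (((a : ℂ) ^ 2 / 2) ^ k * w.1, 0)) := by
      intro k
      rw [even_steps d c a p hp hc ha, even_steps d c a p hp hc ha]
      refine Prod.ext ?_ (Prod.ext ?_ ?_) <;> simp [hw]
    have hod : ∀ k : ℕ, (skew d (fib c a))^[2 * k + 1] (p, w)
        - (skew d (fib c a))^[2 * k + 1] (p, 0)
        = (0, (0, Complex.exp (-(c * p)) * (((a : ℂ) ^ 2 / 2) ^ k * w.1))) := by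
      intro k
      rw [Function.iterate_succ_apply', Function.iterate_succ_apply',
        even_steps d c a p hp hc ha, even_steps d c a p hp hc ha]
      simp only [skew, fib]
      refine Prod.ext ?_ (Prod.ext ?_ ?_) <;> simp [hw]
    have hbd : ∀ n : ℕ, ‖(skew d (fib c a))^[n] (p, w) - (skew d (fib c a))^[n] (p, 0)‖
        ≤ C * (r ^ (n / 2) * ‖w.1‖) := by
      intro n
      rcases Nat.even_or_odd' n with ⟨k, hk | hk⟩
      · have e : n / 2 = k := by omega
        rw [e, hk, hev k, ← hkey k]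
        have h0 : ‖((0 : ℂ), (((a : ℂ) ^ 2 / 2) ^ k * w.1, (0 : ℂ)))‖
            = ‖((a : ℂ) ^ 2 / 2) ^ k * w.1‖ := by
          rw [Prod.norm_mk, Prod.norm_mk, norm_zero, max_eq_left (norm_nonneg _),
            max_eq_right (norm_nonneg _)]
        rw [h0]
        exact le_mul_of_one_le_left (norm_nonneg _) hC1
      · have e : n / 2 = k := by omega
        rw [e, hk, hod k, ← hkey k]
        have h0 : ‖((0 : ℂ), ((0 : ℂ), Complex.exp (-(c * p)) * (((a : ℂ) ^ 2 / 2) ^ k * w.1)))‖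
            = ‖Complex.exp (-(c * p))‖ * ‖((a : ℂ) ^ 2 / 2) ^ k * w.1‖ := by
          rw [← norm_mul, Prod.norm_mk, Prod.norm_mk, norm_zero, max_eq_right (norm_nonneg _),
            max_eq_right (norm_nonneg _)]
        rw [h0]
        exact mul_le_mul_of_nonneg_right hC2 (norm_nonneg _)
    have hdiv : Tendsto (fun n : ℕ => n / 2) atTop atTop :=
      Nat.tendsto_div_const_atTop (by norm_num)
    have hlim : Tendsto (fun n : ℕ => C * (r ^ (n / 2) * ‖w.1‖)) atTop (𝓝 0) := by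
      have h1 := ((tendsto_pow_atTop_nhds_zero_of_lt_one hr0 hr1).comp hdiv)
      have h2 := (h1.mul_const ‖w.1‖).const_mul C
      simpa using h2
    exact squeeze_zero (fun n => norm_nonneg _) hbd hlim

/-- The point of period two on the unit circle. -/
lemma exists_p (d : ℕ) (hd : 2 ≤ d) : ∃ p : ℂ, ‖p‖ = 1 ∧ (p ^ d) ^ d = p ∧ p ^ d ≠ p := by
  obtain ⟨e, rfl⟩ : ∃ e, d = e + 2 := ⟨d - 2, by omega⟩
  set N : ℕ := (e + 2) ^ 2 - 1 with hN
  have hN' : N + 1 = (e + 2) ^ 2 := by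
    have : 1 ≤ (e + 2) ^ 2 := Nat.one_le_pow _ _ (by omega)
    omega
  have hN0 : N ≠ 0 := by nlinarith
  have hprim := Complex.isPrimitiveRoot_exp N hN0
  refine ⟨Complex.exp (2 * Real.pi * Complex.I / N), ?_, ?_, ?_⟩
  · exact hprim.norm'_eq_one hN0
  · rw [← pow_mul, ← pow_two, ← hN', pow_succ, hprim.pow_eq_one, one_mul]
  · intro h
    have h1 : Complex.exp (2 * Real.pi * Complex.I / N) ^ (e + 1) = 1 := by
      have hne : Complex.exp (2 * Real.pi * Complex.I / N) ≠ 0 := Complex.exp_ne_zero _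
      have h2 : Complex.exp (2 * Real.pi * Complex.I / N) ^ (e + 1)
          * Complex.exp (2 * Real.pi * Complex.I / N)
          = 1 * Complex.exp (2 * Real.pi * Complex.I / N) := by
        rw [← pow_succ, one_mul]
        exact h
      exact mul_right_cancel₀ hne h2
    have h3 := hprim.dvd_of_pow_eq_one _ h1
    have h4 := Nat.le_of_dvd (by omega) h3
    nlinarith

theorem result (d : ℕ) (hd : 2 ≤ d) (ε : ℝ) (hε : 0 < ε) :
    ∃ G : ℂ → ℂ × ℂ → ℂ × ℂ,
      Differentiable ℂ (fun x : ℂ × (ℂ × ℂ) => G x.1 x.2) ∧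
      (∀ lam : ℂ, IsHolAut (G lam)) ∧
      (∀ lam : ℂ, G lam 0 = 0) ∧
      (∀ lam μ : ℂ, Module.End.HasEigenvalue
        ((fderiv ℂ (G lam) 0 : ℂ × ℂ →L[ℂ] ℂ × ℂ) : ℂ × ℂ →ₗ[ℂ] ℂ × ℂ) μ → ‖μ‖ < ε) ∧
      ∃ p : ℂ, ‖p‖ = 1 ∧ ∀ (k : ℕ) (lam : ℂ), lam ^ (d ^ k) = p →
        (∃ ℓ : ℂ × ℂ →L[ℂ] ℂ, ℓ ≠ 0 ∧ stableSet d G lam = {w | ℓ w = 0}) ∧
        ¬ ∃ φ : ℂ × ℂ → ℂ × ℂ, Differentiable ℂ φ ∧ Function.Injective φ ∧
          Set.range φ = stableSet d G lam := by
  obtain ⟨p, hp1, hp2, hp3⟩ := exists_p d hd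
  set a : ℝ := min (ε ^ 2 / 2) 1 with hadef
  have ha0 : 0 < a := lt_min (by positivity) one_pos
  have ha1 : a ≤ 1 := min_le_right _ _
  have ha2 : a < ε ^ 2 := by
    have h1 : a ≤ ε ^ 2 / 2 := min_le_left _ _
    have h2 : 0 < ε ^ 2 := by positivity
    linarith
  have ha : (a : ℂ) ≠ 0 := by exact_mod_cast ha0.ne'
  have hsub : p ^ d - p ≠ 0 := sub_ne_zero.mpr hp3
  set c : ℂ := Complex.log ((a : ℂ) / 2) / (p ^ d - p) with hcdef
  have hc : Complex.exp (c * (p ^ d - p)) = (a : ℂ) / 2 := by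
    rw [hcdef, div_mul_cancel₀ _ hsub, Complex.exp_log]
    exact div_ne_zero ha two_ne_zero
  have hst := stable_at d c p a ha0 ha1 hp2 hc
  refine ⟨fib c a, fib_joint c a, ?_, ?_, ?_, p, hp1, ?_⟩
  · intro lam
    exact ⟨fib_diff c a lam, fibInv c a lam, fibInv_diff c a lam, fibInv_fib c a ha lam,
      fib_fibInv c a ha lam⟩
  · intro lam
    simp [fib]
  · intro lam μ hμ
    rw [fderiv_fib] at hμ
    obtain ⟨v, hv⟩ := hμ.exists_hasEigenvector
    have h1 : fib c a lam v = μ • v := by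
      rw [← fibL_apply]
      exact hv.apply_eq_smul
    have h2 := eig c a lam μ v hv.2 h1
    have h3 : ‖μ‖ ^ 2 = a := by
      rw [← norm_pow, h2, Complex.norm_real, Real.norm_of_nonneg ha0.le]
    have h4 : ‖μ‖ ^ 2 < ε ^ 2 := by rw [h3]; exact ha2
    exact lt_of_pow_lt_pow_left₀ 2 hε.le h4
  · intro k lam hlam
    obtain ⟨A, B, hAB, hA⟩ := iterate_form d c a ha k lam
    have hmem : ∀ w : ℂ × ℂ, w ∈ stableSet d (fib c a) lam ↔ (A w).2 = 0 := by
      intro w
      have h1 : w ∈ stableSet d (fib c a) lam ↔ A w ∈ stableSet d (fib c a) p := by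
        simp only [stableSet, Set.mem_ofPred_eq]
        rw [← tendsto_add_atTop_iff_nat k]
        have e : (fun n : ℕ => ‖(skew d (fib c a))^[n + k] (lam, w)
            - (skew d (fib c a))^[n + k] (lam, 0)‖)
            = (fun n : ℕ => ‖(skew d (fib c a))^[n] (p, A w)
            - (skew d (fib c a))^[n] (p, 0)‖) := by
          funext n
          rw [Function.iterate_add_apply, Function.iterate_add_apply, hA, hA, hlam, map_zero]
        rw [e]
      rw [h1, hst]
      rfl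
    constructor
    · refine ⟨(ContinuousLinearMap.snd ℂ ℂ ℂ).comp A, ?_, ?_⟩
      · intro h0
        have h1 : ((ContinuousLinearMap.snd ℂ ℂ ℂ).comp A) (B (0, 1)) = 0 := by
          rw [h0]; rfl
        rw [ContinuousLinearMap.comp_apply, hAB] at h1
        simp at h1
      · ext w
        rw [hmem w]
        rfl
    · rintro ⟨φ, hφ, hinj, hr⟩
      have hAinj : ∀ w w' : ℂ × ℂ, w ∈ stableSet d (fib c a) lam →
          w' ∈ stableSet d (fib c a) lam → (A w).1 = (A w').1 → w = w' := by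
        intro w w' hw hw' h1
        have h2 : (A w).2 = (A w').2 := by rw [(hmem w).1 hw, (hmem w').1 hw']
        have h3 : A w = A w' := Prod.ext h1 h2
        have hsurj : Function.Surjective (A : ℂ × ℂ →ₗ[ℂ] ℂ × ℂ) := fun y => ⟨B y, hAB y⟩
        have hin : Function.Injective (A : ℂ × ℂ →ₗ[ℂ] ℂ × ℂ) :=
          (LinearMap.injective_iff_surjective).2 hsurj
        exact hin h3
      apply no_inj (fun x => (A (φ x)).1)
      · exact (A.differentiable.comp hφ).fst
      · intro x y hxy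
        apply hinj
        apply hAinj _ _ _ _ hxy
        · rw [← hr]; exact ⟨x, rfl⟩
        · rw [← hr]; exact ⟨y, rfl⟩

end Pool.Agent.Results.MP_e40659_an.SaddleProduct
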